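import Pool.Agent.H44.AR.BasicA

/-!
# All reducts, all arities: row NCT

Blocks of elements of a type which is not in `D`, without common elements, are not identified.
-/

set_option autoImplicit false
set_option linter.unusedVariables false

namespace Pool.Agent.H75.AR

open Pool.Agent.H68.BP Pool.Agent.H58.SF Pool.Agent.H53.GC Pool.Agent.H53.NR Pool.Agent.H53.GR
open Pool.Agent.H57.AR Pool.Agent.H44.AR
open Pool.Agent.H57.SO (Pal Col vt Sb FBl)
open Pool.Agent.H57.EQ (Cx)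
open Function

section

variable {V : Type} [LinearOrder V] {ρ : Sig} {𝔹 : Str ρ V}

/-- the names: two copies of each element of the two blocks -/
abbrev Nm (z z' : Fin 6 → V) : Type :=
  {v : V // v ∈ Set.range z ∨ v ∈ Set.range z'} × Fin 2

/-- the rank of a name -/
def rkn (z z' : Fin 6 → V) (n : Nm z z') : V ×ₗ Fin 2 := toLex (n.1.1, n.2)

/-- related names -/
def rel (z z' : Fin 6 → V) (n n' : Nm z z') : Prop :=
  n.1.1 ∈ Set.range z ∨ n'.1.1 ∈ Set.range z ∨ n.2 = n'.2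

omit [LinearOrder V] in
theorem rkn_inj (z z' : Fin 6 → V) : Injective (rkn z z') := by
  rintro ⟨⟨v, hv⟩, i⟩ ⟨⟨w, hw⟩, j⟩ h
  have h1 : (v, i) = (w, j) := toLex.injective h
  have h2 : v = w := congrArg Prod.fst h1
  have h3 : i = j := congrArg Prod.snd h1
  subst h2
  subst h3
  rfl

theorem rkn_lt {z z' : Fin 6 → V} (n n' : Nm z z') :
    rkn z z' n < rkn z z' n' ↔ n.1.1 < n'.1.1 ∨ (n.1.1 = n'.1.1 ∧ n.2 < n'.2) :=
  Prod.Lex.toLex_lt_toLex

/-- A tuple of names whose second entries depend only on the elements, and which are related, has the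
type of the tuple of elements. -/
theorem tpo_names {z z' : Fin 6 → V} {f : Nm z z' → V}
    (h1 : ∀ x y, f x < f y ↔ rkn z z' x < rkn z z' y)
    (h2 : ∀ (l : Fin ρ.m) (w : Fin (ρ.ar l) → Nm z z'), 𝔹 l (fun i => f (w i)) ↔
      (𝔹 l (fun i => (w i).1.1) ∧
        ∀ i j, w i = w j ∨ (rel z z' (w i) (w j) ∧ (w i).1.1 ≠ (w j).1.1)))
    {W : Type} (g : W → Nm z z')
    (e1 : ∀ a b, (g a).1.1 = (g b).1.1 → (g a).2 = (g b).2)
    (e2 : ∀ a b, rel z z' (g a) (g b)) :
    tpo 𝔹 (fun a => f (g a)) = tpo 𝔹 (fun a => (g a).1.1) := by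
  refine tpo_eq_iff.2 ⟨fun l w => ?_, fun a b => ?_⟩
  · rw [h2 l (fun i => g (w i))]
    refine ⟨fun h => h.1, fun h => ⟨h, fun i j => ?_⟩⟩
    by_cases hij : (g (w i)).1.1 = (g (w j)).1.1
    · exact Or.inl (Prod.ext (Subtype.ext hij) (e1 _ _ hij))
    · exact Or.inr ⟨e2 _ _, hij⟩
  · rw [h1, rkn_lt]
    constructor
    · rintro (h | ⟨h, h'⟩)
      · exact h
      · rw [e1 _ _ h] at h'
        exact absurd h' (lt_irrefl _)
    · exact Or.inl

/-- the map from the pairs of a place and a coordinate to the sum -/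
def ps (q : Fin 2 × Fin 6) : Fin 6 ⊕ Fin 6 := if q.1 = 0 then Sum.inl q.2 else Sum.inr q.2

omit [LinearOrder V] in
theorem elim_ps (x y : Fin 6 → V) (q : Fin 2 × Fin 6) :
    (![x, y] : Fin 2 → Fin 6 → V) q.1 q.2 = Sum.elim x y (ps q) := by
  obtain ⟨a, i⟩ := q
  fin_cases a
  · rfl
  · rfl

/-- Identified blocks of one ordered type are identified for all blocks of this ordered type. -/
theorem eqO_of_tpo {h : OT ρ (Fin 6 → V)} (hh : TID 𝔹 ∅ h) {x y x' y' : Fin 6 → V}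
    (ht : tpo 𝔹 (Sum.elim x y) = tpo 𝔹 (Sum.elim x' y')) (he : eqO h x' y') : eqO h x y := by
  have h1 : pullO h (![x, y] : Fin 2 → Fin 6 → V) = pullO h (![x', y'] : Fin 2 → Fin 6 → V) := by
    refine hh.tpo ?_
    have h2 := tpo_comp ht ps
    have h3 : (fun q : Fin 2 × Fin 6 => (![x, y] : Fin 2 → Fin 6 → V) q.1 q.2) =
        fun q => Sum.elim x y (ps q) := funext (elim_ps x y)
    have h4 : (fun q : Fin 2 × Fin 6 => (![x', y'] : Fin 2 → Fin 6 → V) q.1 q.2) =
        fun q => Sum.elim x' y' (ps q) := funext (elim_ps x' y')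
    rw [h3, h4]
    exact h2
  have h5 : eqO (pullO h (![x', y'] : Fin 2 → Fin 6 → V)) 0 1 := he
  rw [← h1] at h5
  exact h5

/-- The copies of the second block. -/
theorem twins (hSYN : T_SYN) {M : ℕ} (hU : Un 𝔹 M) (z z' : Fin 6 → V)
    (hd : ∀ l l', z l ≠ z' l') : ∃ a b b' : Fin 6 → V,
      tpo 𝔹 (Sum.elim a b) = tpo 𝔹 (Sum.elim z z') ∧
      tpo 𝔹 (Sum.elim a b') = tpo 𝔹 (Sum.elim z z') ∧ Twin 𝔹 z' b b' := by
  have hfin : Finite {v : V // v ∈ Set.range z ∨ v ∈ Set.range z'} :=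
    ((Set.finite_range z).union (Set.finite_range z')).to_subtype
  obtain ⟨f, h1, h2⟩ := hSYN ρ V 𝔹 M hU (Nm z z') (V ×ₗ Fin 2) (rkn z z') (fun n => n.1.1)
    (rel z z') (rkn_inj z z') (by
      rintro x y (h | h | h)
      · exact Or.inr (Or.inl h)
      · exact Or.inl h
      · exact Or.inr (Or.inr h.symm))
  have nz : ∀ l, z' l ∉ Set.range z := by
    rintro l ⟨k, hk⟩
    exact hd k l hk
  let na : Fin 2 → Fin 6 → Nm z z' := fun i l => (⟨z l, Or.inl ⟨l, rfl⟩⟩, i)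
  let nb : Fin 2 → Fin 6 → Nm z z' := fun i l => (⟨z' l, Or.inr ⟨l, rfl⟩⟩, i)
  have key : ∀ j : Fin 2, tpo 𝔹 (Sum.elim (fun l => f (na 0 l)) (fun l => f (nb j l))) =
      tpo 𝔹 (Sum.elim z z') := by
    intro j
    have h3 := tpo_names (𝔹 := 𝔹) h1 h2 (Sum.elim (na 0) (nb j)) (by
        rintro (a | a) (b | b) h
        · rfl
        · exact absurd h (hd a b)
        · exact absurd h.symm (hd b a)
        · rfl) (by
        rintro (a | a) (b | b)
        · exact Or.inl ⟨a, rfl⟩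
        · exact Or.inl ⟨a, rfl⟩
        · exact Or.inr (Or.inl ⟨b, rfl⟩)
        · exact Or.inr (Or.inr rfl))
    have h4 : (fun a => f (Sum.elim (na 0) (nb j) a)) =
        Sum.elim (fun l => f (na 0 l)) (fun l => f (nb j l)) := by
      funext a
      rcases a with a | a <;> rfl
    have h5 : (fun a => (Sum.elim (na 0) (nb j) a).1.1) = Sum.elim z z' := by
      funext a
      rcases a with a | a <;> rfl
    rw [← h4, ← h5]
    exact h3
  refine ⟨fun l => f (na 0 l), fun l => f (nb 0 l), fun l => f (nb 1 l), key 0, key 1,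
    ⟨tpo_comp (key 0) Sum.inr, tpo_comp (key 1) Sum.inr, ?_, ?_, ?_⟩⟩
  · intro l w hw
    have h4 : (fun i => Sum.elim (fun l => f (nb 0 l)) (fun l => f (nb 1 l)) (w i)) =
        fun i => f (Sum.elim (nb 0) (nb 1) (w i)) := by
      funext i
      generalize w i = a
      rcases a with a | a <;> rfl
    rw [h4, h2 l (fun i => Sum.elim (nb 0) (nb 1) (w i))] at hw
    have h5 : ∀ i j, (Sum.elim (nb 0) (nb 1) (w i)).2 = (Sum.elim (nb 0) (nb 1) (w j)).2 := by
      intro i j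
      have hr : ∀ a, (Sum.elim (nb 0) (nb 1) a).1.1 ∉ Set.range z := by
        rintro (a | a)
        · exact nz a
        · exact nz a
      rcases hw.2 i j with h | ⟨h | h | h, -⟩
      · exact congrArg Prod.snd h
      · exact absurd h (hr _)
      · exact absurd h (hr _)
      · exact h
    by_cases hi : ∀ i, ∃ j, w i = Sum.inl j
    · exact Or.inl hi
    · right
      push Not at hi
      obtain ⟨i0, hi0⟩ := hi
      have e0 : (Sum.elim (nb 0) (nb 1) (w i0)).2 = 1 := by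
        rcases hh : w i0 with a | a
        · exact absurd hh (hi0 a)
        · rfl
      intro i
      have e1 := (h5 i i0).trans e0
      rcases hh : w i with a | a
      · rw [hh] at e1
        have e2 : (0 : Fin 2) = 1 := e1
        exact absurd e2 (by decide)
      · exact ⟨a, rfl⟩
  · intro l l'
    rw [h1, rkn_lt, le_iff_lt_or_eq]
    constructor
    · rintro (h | ⟨h, -⟩)
      · exact Or.inl h
      · exact Or.inr h
    · rintro (h | h)
      · exact Or.inl h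
      · exact Or.inr ⟨h, (by decide : (0 : Fin 2) < 1)⟩
  · intro l l'
    rw [h1, rkn_lt]
    constructor
    · rintro (h | ⟨-, h⟩)
      · exact h
      · exact absurd (show (1 : Fin 2) < 0 from h) (by decide)
    · exact Or.inl

/-- The copies of the second block are identified. -/
theorem eqO_copies {σ : Sig} {𝔸 : Str σ V} {h : OT ρ (Fin 6 → V)} (hp : PM 𝔹 𝔸 h)
    {a b b' : Fin 6 → V} (h1 : eqO h a b) (h2 : eqO h a b') : eqO h b b' := by
  obtain ⟨ψ, -, hψ⟩ := hp (Fin 3) (fun i w => (![a, b, b'] : Fin 3 → Fin 6 → V) w i)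
  have e01 : ψ 0 = ψ 1 := by
    rw [← eqO_tpo (𝔹 := 𝔹) ψ, hψ]
    exact h1
  have e02 : ψ 0 = ψ 2 := by
    rw [← eqO_tpo (𝔹 := 𝔹) ψ, hψ]
    exact h2
  have e12 : ψ 1 = ψ 2 := e01.symm.trans e02
  rw [← eqO_tpo (𝔹 := 𝔹) ψ, hψ] at e12
  exact e12

end

theorem pf_NCT (hSYN : T_SYN) (hUKM : T_UKM) (hFRB : T_FRB) : T_NCT := by
  intro σ ρ V _ 𝔸 𝔹 M hU D h hS hN s z z' hs hz hz' hd he
  have ht : TID 𝔹 ∅ h := hS.tid.mono (Set.empty_subset D)
  obtain ⟨a, b, b', k1, k2, k3⟩ := twins hSYN hU z z' hd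
  have h1 : eqO h a b := eqO_of_tpo ht k1 he
  have h2 : eqO h a b' := eqO_of_tpo ht k2 he
  have h3 : eqO h b b' := eqO_copies hS.pm h1 h2
  classical
  have hF := (hFRB ρ V 𝔹 M hU).2
  let g : T1 ρ → Fin 6 → V := fun t =>
    if hx : ∃ g : Fin 6 → V, Gb 𝔹 g ∧ ∀ l, ty 𝔹 (g l) = t then hx.choose else z'
  have hg : ∀ x, Gb 𝔹 (g (ty 𝔹 x)) ∧ ∀ l, ty 𝔹 (g (ty 𝔹 x) l) = ty 𝔹 x := by
    intro x
    have e : g (ty 𝔹 x) = (hF x).choose := dif_pos (hF x)
    rw [e]
    exact (hF x).choose_spec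
  let Q : V → Fin 6 → V := fun x => if ty 𝔹 x = s then z' else g (ty 𝔹 x)
  obtain ⟨m, m1, m2, m3⟩ := hUKM σ ρ V 𝔸 𝔹 M hU D h hS s z' Q hz'
    (fun x hx => if_pos hx)
    (fun x hx => by
      have e : Q x = g (ty 𝔹 x) := if_neg hx
      rw [e]
      exact hg x)
    (fun x y hxy => by
      show (if ty 𝔹 x = s then z' else g (ty 𝔹 x)) = if ty 𝔹 y = s then z' else g (ty 𝔹 y)
      rw [hxy])
  have h4 : Clp m s := m3 b b' k3 h3
  refine hN m m1 (z 0) ?_ ?_
  · rw [hz 0]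
    exact hs
  · rw [hz 0]
    exact h4

end Pool.Agent.H75.AR
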